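import Pool.Agent.H57.BD.Stmts

set_option autoImplicit false

namespace Pool.BD

namespace LFmod

/-- A choice of the last L-points. -/
theorem exists_last {α : Type} [LinearOrder α] [Nonempty α] (𝒮 : Finset (Finset α))
    (hne : ∀ S ∈ 𝒮, S.Nonempty) :
    ∃ v : Finset α → α, ∀ S ∈ 𝒮, LPt 𝒮 S (v S) ∧ ∀ u, LPt 𝒮 S u → u ≤ v S := by
  classical
  have key : ∀ S : Finset α, ∃ v : α, S ∈ 𝒮 → LPt 𝒮 S v ∧ ∀ u, LPt 𝒮 S u → u ≤ v := by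
    intro S
    by_cases hS : S ∈ 𝒮
    · have h0 : (S.filter (fun u => LPt 𝒮 S u)).Nonempty := by
        refine ⟨S.min' (hne S hS), ?_⟩
        rw [Finset.mem_filter]
        exact ⟨Finset.min'_mem _ _, Finset.min'_mem _ _, Or.inl fun u hu => Finset.min'_le _ _ hu⟩
      refine ⟨(S.filter (fun u => LPt 𝒮 S u)).max' h0, fun _ => ⟨?_, ?_⟩⟩
      · exact (Finset.mem_filter.1 (Finset.max'_mem _ h0)).2
      · intro u hu
        exact Finset.le_max' _ _ (Finset.mem_filter.2 ⟨hu.1, hu⟩)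
    · obtain ⟨a⟩ := ‹Nonempty α›
      exact ⟨a, fun h => absurd h hS⟩
  choose v hv using key
  exact ⟨v, fun S hS => hv S hS⟩

/-- The dual order on the same type. -/
@[reducible] def dualLO (α : Type) (i : LinearOrder α) : LinearOrder α :=
  inferInstanceAs (LinearOrder αᵒᵈ)

theorem le_dual {α : Type} (i : LinearOrder α) (x y : α) :
    (dualLO α i).le x y ↔ y ≤ x := Iff.rfl

theorem lt_dual {α : Type} (i : LinearOrder α) (x y : α) :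
    (dualLO α i).lt x y ↔ y < x := Iff.rfl

theorem lstar_dual {α : Type} (i : LinearOrder α) {𝒮 : Finset (Finset α)} (h : LStar 𝒮) :
    @LStar α (dualLO α i) 𝒮 := by
  intro S hS S' hS' x hx hxS' y hy hyS' hxy u hu hh
  exact h S hS S' hS' y hy hyS' x hx hxS' hxy u hu ⟨hh.2, hh.1⟩

theorem lpt_dual {α : Type} (i : LinearOrder α) {𝒮 : Finset (Finset α)} {S : Finset α} {v : α} :
    @LPt α (dualLO α i) 𝒮 S v ↔ RPt 𝒮 S v := Iff.rfl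

/-- The first R-points. -/
theorem exists_first {α : Type} [i : LinearOrder α] [Nonempty α] (h : LFHStmt)
    (𝒮 : Finset (Finset α)) (hstar : LStar 𝒮)
    (hne : ∀ S ∈ 𝒮, S.Nonempty) :
    ∃ v : Finset α → α, (∀ S ∈ 𝒮, RPt 𝒮 S (v S) ∧ ∀ u, RPt 𝒮 S u → v S ≤ u) ∧
      ∀ S ∈ 𝒮, ∀ S' ∈ 𝒮, ∀ c ∈ S, c ∉ S' → c ≤ v S → c ≤ v S' →
        v S < v S' ∨ (v S' = v S ∧
          (S'.filter (fun u => u ≤ v S')).card < (S.filter (fun u => u ≤ v S)).card) := by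
  classical
  obtain ⟨v, hv⟩ := @exists_last α (dualLO α i) _ 𝒮 hne
  have h2 := (@h α (dualLO α i) 𝒮 (lstar_dual i hstar) hne v hv).1
  refine ⟨v, fun S hS => ⟨(lpt_dual i).1 (hv S hS).1,
    fun u hu => (le_dual i u (v S)).1 ((hv S hS).2 u ((lpt_dual i).2 hu))⟩, ?_⟩
  intro S hS S' hS' c hc hcS' hcS hcS''
  rcases h2 S hS S' hS' c hc hcS' ((le_dual i _ _).2 hcS) ((le_dual i _ _).2 hcS'') with h1 | h1
  · exact Or.inl ((lt_dual i _ _).1 h1)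
  · refine Or.inr ⟨h1.1, ?_⟩
    have h3 := h1.2
    simp only [le_dual] at h3
    convert h3 using 2

end LFmod

theorem lf (h : LFHStmt) : LFStmt := by
  classical
  intro α _ _ 𝒮 hstar hne
  obtain ⟨vL, hvL⟩ := LFmod.exists_last 𝒮 hne
  obtain ⟨vR, hvR, lf2⟩ := LFmod.exists_first h 𝒮 hstar hne
  obtain ⟨lf1, ng⟩ := h α 𝒮 hstar hne vL hvL
  refine ⟨vL, vR, ⟨fun S hS => (hvL S hS).1.1, fun S hS => (hvR S hS).1.1, ?_, lf1, lf2, ng⟩⟩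
  intro S hS u hu huL
  by_contra hcon
  have huR : vR S < u := not_le.1 hcon
  rcases (hvR S hS).1.2 with hmax | ⟨S₁, hS₁, ⟨z₁, hz₁, hz₁S, hvz₁, hz₁u⟩, y₁, hy₁, hy₁S, hy₁v⟩
  · exact absurd (hmax u hu) (not_le.2 huR)
  rcases (hvL S hS).1.2 with hmin | ⟨S₂, hS₂, ⟨z₂, hz₂, hz₂S, hvz₂, hz₂u⟩, y₂, hy₂, hy₂S, hy₂v⟩
  · exact absurd (hmin u hu) (not_le.2 huL)
  have hz₁u' : z₁ < u := hz₁u u hu huR
  have hz₂u' : u < z₂ := hz₂u u hu huL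
  -- y₁ ≤ vR < z₁ < u < z₂ < vL ≤ y₂
  have hy₁S₂ : y₁ ∈ S₂ := by
    by_contra hn
    exact hstar S hS S₂ hS₂ y₁ hy₁ hn y₂ hy₂ hy₂S
      (((hy₁v.trans_lt huR).trans hz₂u').trans (hvz₂.trans_le hy₂v)) z₂ hz₂
      ⟨(hy₁v.trans_lt huR).trans hz₂u', hvz₂.trans_le hy₂v⟩
  have hy₂S₁ : y₂ ∈ S₁ := by
    by_contra hn
    exact hstar S hS S₁ hS₁ y₁ hy₁ hy₁S y₂ hy₂ hn
      (((hy₁v.trans_lt huR).trans hz₂u').trans (hvz₂.trans_le hy₂v)) z₁ hz₁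
      ⟨hy₁v.trans_lt hvz₁, hz₁u'.trans (huL.trans_le hy₂v)⟩
  have hz₁S₂ : z₁ ∉ S₂ := fun hm =>
    hstar S₂ hS₂ S hS z₁ hm hz₁S z₂ hz₂ hz₂S (hz₁u'.trans hz₂u') u hu ⟨hz₁u', hz₂u'⟩
  exact hstar S₁ hS₁ S₂ hS₂ z₁ hz₁ hz₁S₂ y₂ hy₂S₁ hy₂S
    (hz₁u'.trans (huL.trans_le hy₂v)) z₂ hz₂ ⟨hz₁u'.trans hz₂u', hvz₂.trans_le hy₂v⟩

end Pool.BD
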