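import Pool.Agent.H57.BD.Stmts

set_option autoImplicit false

namespace Pool.BD

namespace LFH

/-- The least element of `S` above `d` is an L-point when there is a witness `y`. -/
theorem lpt_next {α : Type} [LinearOrder α] {𝒮 : Finset (Finset α)} {S S' : Finset α}
    (hS' : S' ∈ 𝒮) {d y : α} (hd : d ∈ S') (hdS : d ∉ S) (hy : y ∈ S) (hyS' : y ∉ S')
    (hdy : d < y) : ∃ w, LPt 𝒮 S w ∧ w ≤ y ∧ d < w := by
  classical
  have hne : (S.filter (fun u => d < u)).Nonempty := ⟨y, by simp [hy, hdy]⟩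
  set w := (S.filter (fun u => d < u)).min' hne with hw
  have hmem : w ∈ S.filter (fun u => d < u) := Finset.min'_mem _ _
  rw [Finset.mem_filter] at hmem
  have hle : ∀ u ∈ S, d < u → w ≤ u := fun u hu hdu =>
    Finset.min'_le _ _ (by simp [hu, hdu])
  refine ⟨w, ⟨hmem.1, Or.inr ⟨S', hS', ⟨d, hd, hdS, hmem.2, ?_⟩, y, hy, hyS', hle y hy hdy⟩⟩,
    hle y hy hdy, hmem.2⟩
  intro u hu huw
  rcases lt_trichotomy u d with h | h | h
  · exact h
  · exact absurd (h ▸ hu) hdS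
  · exact absurd (hle u hu h) (not_le.2 huw)

end LFH

theorem lfh : LFHStmt := by
  classical
  intro α _ 𝒮 hstar hne v hv
  have ng : ∀ S ∈ 𝒮, ∀ S' ∈ 𝒮, ∀ d ∈ S', d ∉ S → v S < d → ∀ y ∈ S, y ∉ S' → y < d := by
    intro S hS S' hS' d hd hdS hvd y hy hyS'
    by_contra hcon
    have hdy : d < y := lt_of_le_of_ne (not_lt.1 hcon) (fun h => hdS (h ▸ hy))
    obtain ⟨w, hw, -, hdw⟩ := LFH.lpt_next hS' hd hdS hy hyS' hdy
    exact absurd ((hv S hS).2 w hw) (not_le.2 (hvd.trans hdw))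
  refine ⟨?_, ng⟩
  intro S hS S' hS' c hc hcS' hvc hvc'
  have hvS : v S ∈ S := (hv S hS).1.1
  have hvS' : v S' ∈ S' := (hv S' hS').1.1
  have hvc'' : v S' < c := lt_of_le_of_ne hvc' (fun h => hcS' (h ▸ hvS'))
  have hle : v S' ≤ v S := by
    by_contra hcon
    have hlt : v S < v S' := not_le.1 hcon
    rcases (hv S' hS').1.2 with hmin | ⟨S'', hS'', ⟨z, hz, hzS', hzv, hzu⟩, y, hy, hyS'', hvy⟩
    · have hvn : v S ∉ S' := fun h => absurd (hmin _ h) (not_le.2 hlt)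
      exact hstar S hS S' hS' (v S) hvS hvn c hc hcS' (hlt.trans hvc'') (v S') hvS'
        ⟨hlt, hvc''⟩
    · have hzS : z ∉ S := fun h =>
        hstar S hS S' hS' z h hzS' c hc hcS' (hzv.trans hvc'') (v S') hvS' ⟨hzv, hvc''⟩
      have hcS'' : c ∉ S'' := fun h =>
        hstar S'' hS'' S' hS' z hz hzS' c h hcS' (hzv.trans hvc'') (v S') hvS' ⟨hzv, hvc''⟩
      obtain ⟨w, hw, hwc, hzw⟩ := LFH.lpt_next hS'' hz hzS hc hcS'' (hzv.trans hvc'')
      have hwv : w < v S' := lt_of_le_of_lt ((hv S hS).2 w hw) hlt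
      have hwS' : w ∉ S' := fun h => absurd (hzu w h hwv) (not_lt.2 hzw.le)
      exact hstar S hS S' hS' w hw.1 hwS' c hc hcS' (hwv.trans hvc'') (v S') hvS' ⟨hwv, hvc''⟩
  rcases lt_or_eq_of_le hle with h | h
  · exact Or.inl h
  · refine Or.inr ⟨h, ?_⟩
    apply Finset.card_lt_card
    rw [Finset.ssubset_iff_of_subset]
    · refine ⟨c, by simp [hc, hvc], ?_⟩
      simp [hcS']
    · intro y hy
      rw [Finset.mem_filter] at hy ⊢
      refine ⟨?_, by rw [← h]; exact hy.2⟩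
      by_contra hyS
      have hvy : v S' < y := lt_of_le_of_ne hy.2 (fun h' => hyS (by rw [← h', h]; exact hvS))
      rcases lt_trichotomy y c with h1 | h1 | h1
      · exact absurd (ng S hS S' hS' y hy.1 hyS (h ▸ hvy) c hc hcS') (not_lt.2 h1.le)
      · exact hcS' (h1 ▸ hy.1)
      · exact absurd (ng S' hS' S hS c hc hcS' hvc'' y hy.1 hyS) (not_lt.2 h1.le)

end Pool.BD
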